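import Pool.Agent.Helper28.OHS.Goals2
import Pool.Agent.Helper28.Ram.Par3
import Pool.Agent.Helper28.Few.Par
import Pool.Agent.Helper90.OH.OKS
import Pool.Agent.Helper69.Ram.PAR

/-!
# Packet OHS PAR: the bounds of the theorem give admissible parameters
-/

namespace Pool.Agent.Helper9.OHS

open Pool.Agent.Helper65.LinSpace Pool.Agent.Helper78.Mpc Pool.Agent.Helper28.Ram
open Pool.Agent.Helper65.OH (kap sd2)
open Finset Filter
open Pool.Agent.Helper81.Tok2 (gH)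
open Pool.Agent.Helper28.Long (ZL ZL_le le_ZL)
open Pool.Agent.Helper28.OHS (gd PAR_stmt)

theorem par : PAR_stmt := by
  intro D C hD
  obtain ⟨k, hk⟩ := exists_nat_gt ((1536 * |C| * D ^ 2 + 100 * (D + 1) * |C| + 4) ^ 2)
  filter_upwards [ev_ll_ge k, le_ZL C] with n hn hZL x s b a h hs h1 h2 h2a
  have hC : C ≤ |C| := le_abs_self C
  have hC0 := abs_nonneg C
  have hD1 : (1 : ℝ) ≤ D := by exact_mod_cast hD
  have haZ : a ≤ ZL n := by
    refine hZL a ?_
    rw [le_div_iff₀ (by positivity)]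
    refine le_trans (mul_le_mul_of_nonneg_left ?_ (Nat.cast_nonneg a)) h2a
    have h5 : (0 : ℝ) ≤ ((h + b : ℕ) : ℝ) := Nat.cast_nonneg _
    exact pow_le_pow_left₀ (by positivity) (by linarith) 2
  have hl : ((ll n + (h + b) : ℕ) : ℝ) = ((h + b : ℕ) : ℝ) + ((Nat.log 2 n : ℝ) + 1) := by
    unfold ll
    push_cast
    ring
  have hN : ((n : ℝ) + 1) ≤ (gH n h : ℝ) * gH n h * ((ll n + (h + b) : ℕ) : ℝ) := by
    have e0 : n + 1 ≤ gH n h * gH n h * (ll n + (h + b)) :=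
      (Pool.Agent.Helper28.Few.lt_gH_sq n h).trans (Nat.mul_le_mul_left _ (by omega))
    exact_mod_cast e0
  rw [← hl] at h1 h2
  have hLpos : 1 ≤ ll n + (h + b) := le_trans (ll_pos n) (Nat.le_add_right _ _)
  have hlk : (1536 * |C| * D ^ 2 + 100 * (D + 1) * |C| + 4) ^ 2 <
      ((ll n + (h + b) : ℕ) : ℝ) :=
    lt_of_lt_of_le hk (by exact_mod_cast hn.trans (Nat.le_add_right _ _))
  have hkap : (b + 1) * D + (h + kap n) + 1 ≤ 12 * (D * (ll n + (h + b))) := by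
    unfold kap
    have hp := ll_pos n
    have e1 : (b + 1) * D = D * b + D := by ring
    have e2 : 12 * (D * (ll n + (h + b))) = 12 * (D * ll n) + 12 * (D * h) + 12 * (D * b) := by
      ring
    have e3 : ll n ≤ D * ll n := Nat.le_mul_of_pos_left _ hD
    have e4 : h ≤ D * h := Nat.le_mul_of_pos_left _ hD
    have e5 : D ≤ D * ll n := Nat.le_mul_of_pos_right _ hp
    omega
  set Ln : ℕ := ll n + (h + b) with hLn
  set L : ℝ := (Ln : ℝ) with hL
  have hl1 : (1 : ℝ) ≤ L := by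
    rw [hL]
    exact_mod_cast hLpos
  have hl0 : (0 : ℝ) ≤ L := by linarith
  set g : ℝ := (gH n h : ℝ) with hg
  have hg1 : (1 : ℝ) ≤ g := by
    rw [hg]
    exact_mod_cast Pool.Agent.Helper28.Few.gH_pos n h
  set u : ℝ := Real.sqrt L with hu
  have hu0 : 0 ≤ u := Real.sqrt_nonneg _
  have huu : u * u = L := Real.mul_self_sqrt hl0
  have hub : 1536 * |C| * D ^ 2 + 100 * (D + 1) * |C| + 4 < u := by
    rw [hu]
    exact Real.lt_sqrt_of_sq_lt hlk
  have hb1' : 0 ≤ 1536 * |C| * D ^ 2 := by positivity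
  have hb2' : 0 ≤ 100 * (D + 1) * |C| := by positivity
  set v : ℝ := Real.sqrt ((n : ℝ) + 1) with hv
  have hn0 : (0 : ℝ) < (n : ℝ) + 1 := by positivity
  have hv0 : 0 ≤ v := Real.sqrt_nonneg _
  have hvv : v * v = (n : ℝ) + 1 := Real.mul_self_sqrt hn0.le
  have e1 : ((n : ℝ) + 1) ^ ((1 : ℝ) / 2) = v := by rw [hv, Real.sqrt_eq_rpow]
  have hvg : v ≤ g * u := by
    have h3 : v * v ≤ (g * u) * (g * u) := by
      rw [hvv]
      calc (n : ℝ) + 1 ≤ g * g * L := hN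
        _ = (g * u) * (g * u) := by rw [← huu]; ring
    exact abs_le_of_sq_le_sq' (by rw [sq, sq]; exact h3) (by positivity) |>.2
  have hu4 : 4 < u := by linarith
  have hu1 : 0 < u := by linarith
  rw [e1] at h2
  have hs0 : (1 : ℝ) ≤ s := by exact_mod_cast hs
  have hspos : (0 : ℝ) < s := by linarith
  have hh0 : (0 : ℝ) ≤ h := Nat.cast_nonneg h
  -- the second hypothesis
  have h4 : ((s : ℝ) + L) * ((h : ℝ) + 1) * u ≤ |C| * g := by
    have h6 : C * v ≤ |C| * (g * u) := mul_le_mul hC hvg hv0 hC0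
    have h7 : (((s : ℝ) + L) * ((h : ℝ) + 1) * u) * u ≤ (|C| * g) * u := by
      calc _ = ((s : ℝ) + L) * ((h : ℝ) + 1) * (u * u) := by ring
        _ = ((s : ℝ) + L) * ((h : ℝ) + 1) * L := by rw [huu]
        _ ≤ |C| * (g * u) := h2.trans h6
        _ = _ := by ring
    exact le_of_mul_le_mul_right h7 hu1
  have hZ : (1 : ℝ) ≤ ((s : ℝ) + L) * ((h : ℝ) + 1) :=
    one_le_mul_of_one_le_of_one_le (by linarith) (by linarith)
  have hC1 : 0 < |C| := by
    rcases hC0.lt_or_eq with hlt | heq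
    · exact hlt
    · rw [← heq, zero_mul] at h4
      have : 1 * u ≤ ((s : ℝ) + L) * ((h : ℝ) + 1) * u := mul_le_mul_of_nonneg_right hZ hu0
      linarith
  have h8 : 100 * (D + 1) * (((s : ℝ) + L) * ((h : ℝ) + 1)) ≤ g := by
    have h9 : ((s : ℝ) + L) * ((h : ℝ) + 1) * (100 * (D + 1) * |C|) ≤
        ((s : ℝ) + L) * ((h : ℝ) + 1) * u :=
      mul_le_mul_of_nonneg_left (by linarith) (by linarith)
    have h10 : |C| * (100 * (D + 1) * (((s : ℝ) + L) * ((h : ℝ) + 1))) ≤ |C| * g := by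
      calc |C| * (100 * (D + 1) * (((s : ℝ) + L) * ((h : ℝ) + 1)))
          = ((s : ℝ) + L) * ((h : ℝ) + 1) * (100 * (D + 1) * |C|) := by ring
        _ ≤ ((s : ℝ) + L) * ((h : ℝ) + 1) * u := h9
        _ ≤ |C| * g := h4
    exact le_of_mul_le_mul_left h10 hC1
  have h11 : 100 * (D + 1) * ((s + Ln) * (h + 1)) ≤ gH n h := by
    rw [hg, hL] at h8
    exact_mod_cast h8
  have hZn : s + Ln ≤ (s + Ln) * (h + 1) := Nat.le_mul_of_pos_right _ (Nat.succ_pos h)
  have hZh : (s + Ln) * h ≤ (s + Ln) * (h + 1) := Nat.mul_le_mul_left _ (Nat.le_succ h)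
  have hDZ : 12 * (D * (s + Ln)) ≤ 12 * (D * ((s + Ln) * (h + 1))) :=
    Nat.mul_le_mul_left _ (Nat.mul_le_mul_left _ hZn)
  have hDZh : 12 * (D * ((s + Ln) * h)) ≤ 12 * (D * ((s + Ln) * (h + 1))) :=
    Nat.mul_le_mul_left _ (Nat.mul_le_mul_left _ hZh)
  have hsum : s + (b + 1) * D + (h + kap n) + 1 ≤ 12 * (D * (s + Ln)) := by
    have e2 : 12 * (D * (s + Ln)) = 12 * (D * s) + 12 * (D * Ln) := by ring
    have e3 : s ≤ D * s := Nat.le_mul_of_pos_left _ hD
    omega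
  have h11' : 100 * (D * ((s + Ln) * (h + 1))) + 100 * ((s + Ln) * (h + 1)) ≤ gH n h := by
    calc _ = 100 * (D + 1) * ((s + Ln) * (h + 1)) := by ring
      _ ≤ _ := h11
  have g1 : (s + (b + 1) * D + (h + kap n) + 1) * h ≤ gH n h := by
    calc (s + (b + 1) * D + (h + kap n) + 1) * h ≤ (12 * (D * (s + Ln))) * h :=
          Nat.mul_le_mul_right _ hsum
      _ = 12 * (D * ((s + Ln) * h)) := by ring
      _ ≤ gH n h := by omega
  have hσ : s + (b + 1) * D + (h + kap n) ≤ gH n h := by omega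
  have hgD : 100 * D ≤ gH n h := by
    have : D * 1 ≤ D * ((s + Ln) * (h + 1)) := Nat.mul_le_mul_left _ (by omega)
    omega
  have hx : x + 1 ≤ (n + 2) ^ 4 := by
    set E : ℝ := 1 / (D : ℝ) with hE
    have hE0 : 0 < E := by positivity
    have hE1 : E ≤ 1 := by
      rw [hE, div_le_one (by linarith)]
      exact hD1
    have a1 : (1 : ℝ) ≤ (s : ℝ) ^ (1 + E) := Real.one_le_rpow hs0 (by linarith)
    have a2 : (x : ℝ) ≤ (x : ℝ) * (s : ℝ) ^ (1 + E) :=
      le_mul_of_one_le_right (Nat.cast_nonneg _) a1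
    have a3 : ((n : ℝ) + 1) ^ ((3 : ℝ) / 2 + E) ≤ ((n : ℝ) + 1) ^ (3 : ℝ) :=
      Real.rpow_le_rpow_of_exponent_le (by linarith [Nat.cast_nonneg (α := ℝ) n]) (by linarith)
    have a4 : ((n : ℝ) + 1) ^ (3 : ℝ) = ((n : ℝ) + 1) ^ 3 := by
      rw [show (3 : ℝ) = ((3 : ℕ) : ℝ) by norm_num, Real.rpow_natCast]
    have a5 : |C| ≤ L ^ 4 := by
      have b1 : |C| ≤ u := by
        have : 1 * |C| ≤ 100 * (D + 1) * |C| :=
          mul_le_mul_of_nonneg_right (by linarith) hC0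
        linarith
      have b2 : u ≤ L := by rw [← huu]; exact le_mul_of_one_le_left hu0 (by linarith)
      have b3 : L ≤ L ^ 4 := le_self_pow₀ hl1 (by norm_num)
      linarith
    have hL4 : 0 < L ^ 4 := by positivity
    have a6 : (x : ℝ) ≤ ((n : ℝ) + 1) ^ 3 := by
      have b1 : (x : ℝ) * L ^ 4 ≤ ((n : ℝ) + 1) ^ 3 * L ^ 4 := by
        calc (x : ℝ) * L ^ 4 ≤ (x : ℝ) * (s : ℝ) ^ (1 + E) * L ^ 4 :=
              mul_le_mul_of_nonneg_right a2 hL4.le
          _ ≤ C * ((n : ℝ) + 1) ^ ((3 : ℝ) / 2 + E) := h1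
          _ ≤ L ^ 4 * ((n : ℝ) + 1) ^ (3 : ℝ) :=
              mul_le_mul (hC.trans a5) a3 (by positivity) (by positivity)
          _ = _ := by rw [a4]; ring
      exact le_of_mul_le_mul_right b1 hL4
    have a7 : ((x : ℝ)) ≤ (((n + 1) ^ 3 : ℕ) : ℝ) := by
      push_cast
      exact a6
    have a8 : x ≤ (n + 1) ^ 3 := by exact_mod_cast a7
    calc x + 1 ≤ (n + 1) ^ 3 + 1 := by omega
      _ ≤ (n + 2) ^ 3 := by
          have : (n + 2) ^ 3 = (n + 1) ^ 3 + (3 * n ^ 2 + 9 * n + 7) := by ring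
          omega
      _ ≤ (n + 2) ^ 4 := Nat.pow_le_pow_right (by omega) (by norm_num)
  have hgn : gH n h ≤ n + 1 :=
    (Pool.Agent.Helper28.Few.gH_le n h).trans (Pool.Agent.Helper69.Ram.gR_le n)
  have hLg : s + Ln + 1 ≤ gH n h := by omega
  have haN : a ≤ n := haZ.trans (ZL_le n)
  have hpw : n + 2 ≤ 2 ^ (ll n + 1) := by
    have e1 : n < 2 ^ ll n := Nat.lt_pow_succ_log_self (by norm_num) n
    have e2 : 2 ^ (ll n + 1) = 2 ^ ll n * 2 := pow_succ _ _
    have e3 : 1 ≤ 2 ^ ll n := Nat.one_le_two_pow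
    omega
  have hpw4 : (n + 2) ^ 4 ≤ 2 ^ (4 * ll n + 4) := by
    calc (n + 2) ^ 4 ≤ (2 ^ (ll n + 1)) ^ 4 := Nat.pow_le_pow_left hpw 4
      _ = 2 ^ (4 * ll n + 4) := by rw [← pow_mul]; congr 1; ring
  have htime : 2 ^ h * (x + 1) + 2 ≤ 2 ^ (h + (4 * ll n + 5)) := by
    have e1 : 2 ^ h * (x + 1) ≤ 2 ^ h * 2 ^ (4 * ll n + 4) :=
      Nat.mul_le_mul_left _ (hx.trans hpw4)
    have e2 : 2 ≤ 2 ^ h * 2 ^ (4 * ll n + 4) := by
      have e4 : 1 ≤ 2 ^ h := Nat.one_le_two_pow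
      have e5 : 2 ^ (4 * ll n + 4) = 2 ^ (4 * ll n + 3) * 2 := pow_succ _ _
      have e6 : 1 ≤ 2 ^ (4 * ll n + 3) := Nat.one_le_two_pow
      calc 2 ≤ 2 ^ (4 * ll n + 4) := by omega
        _ ≤ _ := Nat.le_mul_of_pos_left _ (by omega)
    have e3 : 2 ^ (h + (4 * ll n + 5)) = 2 ^ h * 2 ^ (4 * ll n + 4) * 2 := by
      rw [← pow_add, ← pow_succ]
      congr 1
    omega
  have hgd : gd n D s b a h = 1 := by
    unfold gd le01
    rw [if_pos hσ, if_pos g1, if_pos haZ]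
  refine ⟨hgd, by omega, by omega, by omega, by omega, htime, ?_⟩
  have hE : 1 / (D : ℝ) = ((D : ℝ))⁻¹ := one_div _
  rw [hE] at h1
  set E : ℝ := ((D : ℝ))⁻¹ with hEd
  have hE0 : 0 < E := by positivity
  have hE1 : E ≤ 1 := inv_le_one_of_one_le₀ hD1
  have hgpos : 1 ≤ gH n h := Pool.Agent.Helper28.Few.gH_pos n h
  have hgg : gH n h ≤ gH n h * gH n h := Nat.le_mul_of_pos_left _ hgpos
  obtain ⟨d1, -, d3⟩ := Pool.Agent.Helper90.OH.side_aux s D (gH n h * gH n h) hD (by omega)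
  have hdd : ∑ j ∈ range (gH n h * gH n h), le01 ((s + 1) * (j + 1) ^ D) (gH n h * gH n h) =
    sd2 (gH n h) s D := rfl
  rw [hdd] at d1 d3
  set d := sd2 (gH n h) s D with hd
  set σ := s + (b + 1) * D + (h + kap n) with hσd
  set q := gH n h / σ with hb
  have hb1 : 1 ≤ q := by
    rw [hb, Nat.le_div_iff_mul_le (by omega)]
    omega
  have hgb : gH n h ≤ 2 * q * σ := by
    have h21 : gH n h < (q + 1) * σ := by
      have := Nat.lt_div_mul_add (a := gH n h) (b := σ) (by omega)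
      rw [add_mul, one_mul]
      exact this
    have h22 : (q + 1) * σ ≤ (2 * q) * σ := Nat.mul_le_mul_right _ (by omega)
    omega
  have hσM : σ ≤ s * (12 * (D * Ln)) := by
    have e3 : (b + 1) * D + (h + kap n) ≤ s * ((b + 1) * D + (h + kap n)) :=
      Nat.le_mul_of_pos_left _ hs
    calc σ ≤ s * ((b + 1) * D + (h + kap n) + 1) := by
          rw [hσd, mul_add s ((b + 1) * D + (h + kap n)) 1]
          omega
      _ ≤ _ := Nat.mul_le_mul_left _ hkap
  -- real versions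
  have hgbr : g ≤ 2 * q * (s * (12 * (D * (u * u)))) := by
    have : gH n h ≤ 2 * q * (s * (12 * (D * Ln))) :=
      hgb.trans (Nat.mul_le_mul_left _ hσM)
    rw [huu, hg, hL]
    exact_mod_cast this
  have hdr : g * g < 2 * s * (2 * (d : ℝ)) ^ D := by
    have e2 : gH n h * gH n h < 2 * s * (2 * d) ^ D := by
      refine lt_of_lt_of_le d3 (Nat.mul_le_mul (by omega) (Nat.pow_le_pow_left (by omega) D))
    rw [hg]
    exact_mod_cast e2
  have hd0 : (1 : ℝ) ≤ d := by exact_mod_cast d1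
  have hX : (g * g) ^ E ≤ 4 * d * (s : ℝ) ^ E := by
    have e2 : (g * g) ^ E ≤ (2 * s * (2 * (d : ℝ)) ^ D) ^ E :=
      Real.rpow_le_rpow (by positivity) hdr.le hE0.le
    have e3 : (2 * s * (2 * (d : ℝ)) ^ D) ^ E = (2 : ℝ) ^ E * (s : ℝ) ^ E * (2 * d) := by
      rw [Real.mul_rpow (by positivity) (by positivity), Real.mul_rpow (by norm_num) hspos.le,
        hEd, Real.pow_rpow_inv_natCast (by positivity) (by omega)]
    have e4 : (2 : ℝ) ^ E ≤ 2 := by
      calc (2 : ℝ) ^ E ≤ (2 : ℝ) ^ (1 : ℝ) :=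
            Real.rpow_le_rpow_of_exponent_le (by norm_num) hE1
        _ = 2 := Real.rpow_one 2
    rw [e3] at e2
    have hsE : 0 ≤ (s : ℝ) ^ E := by positivity
    calc (g * g) ^ E ≤ (2 : ℝ) ^ E * (s : ℝ) ^ E * (2 * d) := e2
      _ ≤ 2 * (s : ℝ) ^ E * (2 * d) := by gcongr
      _ = _ := by ring
  have hnE : ((n : ℝ) + 1) ^ ((3 : ℝ) / 2 + E) ≤ v * v * v * ((g * g) ^ E * (u * u)) := by
    have e2 : ((n : ℝ) + 1) ^ ((3 : ℝ) / 2) = v * v * v := by
      have : (3 : ℝ) / 2 = 1 + 1 / 2 := by norm_num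
      rw [this, Real.rpow_add hn0, Real.rpow_one, e1, hvv]
    have e3 : ((n : ℝ) + 1) ^ E ≤ (g * g) ^ E * (u * u) := by
      calc ((n : ℝ) + 1) ^ E ≤ (g * g * L) ^ E := Real.rpow_le_rpow hn0.le hN hE0.le
        _ = (g * g) ^ E * L ^ E := Real.mul_rpow (by positivity) hl0
        _ ≤ (g * g) ^ E * (u * u) := by
          rw [huu]
          have : L ^ E ≤ L ^ (1 : ℝ) :=
            Real.rpow_le_rpow_of_exponent_le hl1 hE1
          rw [Real.rpow_one] at this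
          gcongr
    rw [Real.rpow_add hn0, e2]
    gcongr
  have hsE : 0 < (s : ℝ) ^ E := by positivity
  -- the main chain
  have m1 : (x : ℝ) * (s * (s : ℝ) ^ E) * (u * u) ^ 4 ≤
      |C| * ((g * u) * (g * u) * (g * u) * ((g * g) ^ E * (u * u))) := by
    have b1 : (x : ℝ) * (s * (s : ℝ) ^ E) * (u * u) ^ 4 ≤
        C * ((n : ℝ) + 1) ^ ((3 : ℝ) / 2 + E) := by
      rw [Real.rpow_add hspos, Real.rpow_one] at h1
      rw [huu]
      exact h1
    have b2 : v * v * v ≤ (g * u) * (g * u) * (g * u) :=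
      mul_le_mul (mul_le_mul hvg hvg hv0 (by positivity)) hvg hv0 (by positivity)
    calc _ ≤ C * ((n : ℝ) + 1) ^ ((3 : ℝ) / 2 + E) := b1
      _ ≤ |C| * (v * v * v * ((g * g) ^ E * (u * u))) :=
          mul_le_mul hC hnE (by positivity) hC0
      _ ≤ _ := by gcongr
  have m2 : (x : ℝ) * (s * (s : ℝ) ^ E) * (u * u * u) ≤ |C| * (g * g * g * (g * g) ^ E) := by
    have b1 : ((x : ℝ) * (s * (s : ℝ) ^ E) * (u * u * u)) * (u * u * u * u * u) ≤
        (|C| * (g * g * g * (g * g) ^ E)) * (u * u * u * u * u) := by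
      calc _ = (x : ℝ) * (s * (s : ℝ) ^ E) * (u * u) ^ 4 := by ring
        _ ≤ _ := m1
        _ = _ := by ring
    exact le_of_mul_le_mul_right b1 (by positivity)
  have m3 : (x : ℝ) * s * (u * u * u) ≤ 4 * |C| * (g * g * g) * d := by
    have b1 : ((x : ℝ) * s * (u * u * u)) * (s : ℝ) ^ E ≤
        (4 * |C| * (g * g * g) * d) * (s : ℝ) ^ E := by
      calc _ = (x : ℝ) * (s * (s : ℝ) ^ E) * (u * u * u) := by ring
        _ ≤ |C| * (g * g * g * (g * g) ^ E) := m2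
        _ ≤ |C| * (g * g * g * (4 * d * (s : ℝ) ^ E)) := by gcongr
        _ = _ := by ring
    exact le_of_mul_le_mul_right b1 hsE
  have m4 : (x : ℝ) * u ≤ 96 * |C| * D * (d * (g * (g * q))) := by
    have b1 : ((x : ℝ) * u) * (s * (u * u)) ≤
        (96 * |C| * D * (d * (g * (g * q)))) * (s * (u * u)) := by
      calc _ = (x : ℝ) * s * (u * u * u) := by ring
        _ ≤ 4 * |C| * (g * g * g) * d := m3
        _ ≤ 4 * |C| * (g * g * (2 * q * (s * (12 * (D * (u * u)))))) * d := by gcongr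
        _ = _ := by ring
    exact le_of_mul_le_mul_right b1 (by positivity)
  have hQ : (0 : ℝ) < d * (g * (g * q)) := by
    have : (1 : ℝ) ≤ q := by exact_mod_cast hb1
    positivity
  have m5 : (16 : ℝ) * (D * x) < d * (g * (g * q)) := by
    set Q : ℝ := d * (g * (g * q)) with hQd
    have b1 : (16 : ℝ) * (D * x) * u ≤ 1536 * |C| * D ^ 2 * Q := by
      calc (16 : ℝ) * (D * x) * u = 16 * D * (x * u) := by ring
        _ ≤ 16 * D * (96 * |C| * D * Q) := by gcongr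
        _ = _ := by ring
    have b3 : (16 : ℝ) * (D * x) * (1536 * |C| * D ^ 2 + 1) ≤ (16 : ℝ) * (D * x) * u := by
      have : 0 ≤ (16 : ℝ) * (D * x) := by positivity
      exact mul_le_mul_of_nonneg_left (by linarith) this
    by_contra hcon
    push Not at hcon
    have b4 : Q * (1536 * |C| * D ^ 2 + 1) ≤ (16 : ℝ) * (D * x) * (1536 * |C| * D ^ 2 + 1) :=
      mul_le_mul_of_nonneg_right hcon (by linarith)
    have b5 : Q * (1536 * |C| * D ^ 2 + 1) ≤ 1536 * |C| * D ^ 2 * Q := b4.trans (b3.trans b1)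
    have b6 : Q * (1536 * |C| * D ^ 2 + 1) = 1536 * |C| * D ^ 2 * Q + Q := by ring
    rw [b6] at b5
    linarith
  have m6 : 16 * (D * x) < d * (gH n h * (gH n h * q)) := by
    rw [hg] at m5
    exact_mod_cast m5
  have q1 : gH n h ≤ gH n h * q := Nat.le_mul_of_pos_right _ hb1
  have q2 : 100 * gH n h ≤ gH n h * (gH n h * q) := by
    calc 100 * gH n h ≤ gH n h * gH n h := Nat.mul_le_mul_right _ (by omega)
      _ ≤ _ := Nat.mul_le_mul_left _ q1
  have q3 : d * (100 * gH n h) ≤ d * (gH n h * (gH n h * q)) := Nat.mul_le_mul_left _ q2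
  have q4 : d * (100 * gH n h) = 100 * (d * gH n h) := by ring
  have q5 : d ≤ d * gH n h := Nat.le_mul_of_pos_right _ hgpos
  have q6 : gH n h ≤ d * gH n h := Nat.le_mul_of_pos_left _ d1
  have q7 : 2 * D * (2 * x + 1) = 4 * (D * x) + 2 * D := by ring
  rw [q7]
  omega

end Pool.Agent.Helper9.OHS
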